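import Pool.Agent.H97.LA.Targets

/-!
Circuits with linear algebra gates, symmetric under exchanges of literals (MP_c62aed_lc): assembly.
-/

set_option autoImplicit false

namespace Pool.Agent.H70.LA

open Finset Pool.Agent.H60.SYM Pool.Agent.H42.XS Pool.Agent.H97.LA

theorem lowLA (hSIZ : T_SIZ) (hCOR : T_CORLA) (hORB : T_ORBX) (hMAT : T_MATY) (hRED : T_REDI)
    (hEXT : T_EXTD) (hNUM : T_NUMX) (hSHIFT : T_SHIFTG) (k : ℕ) (hk : 2 ≤ k) :
    ∃ c n₀ : ℕ, ∀ n ≥ n₀, ∀ (U : Submodule (ZMod 2) (Fin n → ZMod 2)) (s t : ℕ)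
    (V : Type) (C : LCirc (Cl n k) V s t), LSym U C → LRight (c * n) C →
    (2 : ℝ) ^ ((Module.finrank (ZMod 2) U : ℝ) - 12 * Real.log k / √k * n) ≤ s + t := by
  by_cases htriv : 1 ≤ 12 * Real.log k / √k
  · refine ⟨0, 0, fun n _ U s t V C _ _ => ?_⟩
    have h1 : Module.finrank (ZMod 2) U ≤ n := by
      have := Submodule.finrank_le U
      rwa [Module.finrank_fin_fun] at this
    have h1' : (Module.finrank (ZMod 2) U : ℝ) ≤ n := by exact_mod_cast h1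
    have h2 : (n : ℝ) ≤ 12 * Real.log k / √k * n :=
      le_mul_of_one_le_left (Nat.cast_nonneg n) htriv
    have h3 : (2 : ℝ) ^ ((Module.finrank (ZMod 2) U : ℝ) - 12 * Real.log k / √k * n) ≤ 1 :=
      Real.rpow_le_one_of_one_le_of_nonpos (by norm_num) (by linarith)
    have h4 : 1 ≤ s := by
      have := C.out.pos
      omega
    have h5 : (1 : ℝ) ≤ s := by exact_mod_cast h4
    have h6 : (0 : ℝ) ≤ t := Nat.cast_nonneg t
    linarith
  push Not at htriv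
  obtain ⟨d, rfl⟩ : ∃ d, k = d + 1 := ⟨k - 1, by omega⟩
  obtain ⟨k, hkd⟩ : ∃ k : ℕ, k = d + 1 := ⟨_, rfl⟩
  rw [← hkd] at htriv hk
  have hk' : (2 : ℝ) ≤ k := by exact_mod_cast hk
  have hk0 : (0 : ℝ) < k := by linarith
  have hL0 : 0 < Real.log k := Real.log_pos (by linarith)
  obtain ⟨ρ, hρ⟩ : ∃ ρ : ℕ, ρ = ⌈√k / (3 * Real.log k)⌉₊ := ⟨_, rfl⟩
  obtain ⟨α, hα⟩ : ∃ α : ℝ, α = Real.log k / k := ⟨_, rfl⟩
  obtain ⟨A, hA⟩ : ∃ A : ℝ,
      A = 4 * ρ * α * Real.log (Real.exp 1 * ((16 * k ^ 2 + 1 : ℕ) : ℝ) / (4 * ρ * α)) +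
      Real.exp (-(9 / 5 * (α * k))) := ⟨_, rfl⟩
  obtain ⟨hρ1, hρα, hA1, hA2⟩ := hNUM k hk htriv ρ α A hρ hα hA
  obtain ⟨η, hη⟩ : ∃ η : ℝ, η = 12 * Real.log k / √k := ⟨_, rfl⟩
  rw [← hη] at hA1 hA2
  have hα0 : 0 < α := by rw [hα]; positivity
  have hη0 : 0 < η := by
    rw [hη]
    have : 0 < √(k : ℝ) := Real.sqrt_pos.2 hk0
    positivity
  have hρ1' : (1 : ℝ) ≤ ρ := by exact_mod_cast hρ1
  have hα4 : 4 * α ≤ 1 := by
    have h1 : α ≤ ρ * α := le_mul_of_one_le_left hα0.le hρ1'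
    linarith
  obtain ⟨K, hK⟩ : ∃ K : ℕ, K = 16 * k ^ 2 := ⟨_, rfl⟩
  obtain ⟨n₁, hn₁⟩ := hMAT d (K + 1) ρ α η A (by omega) hρ1 hα0 hη0 hρα (by
    rw [hA, hK]
    have e : ((d : ℝ) + 1) = k := by rw [hkd]; push_cast; ring
    rw [e]) hA1 hA2
  refine ⟨K * 2 ^ d, max n₁ (⌈2 / α⌉₊ + 1), fun n hn U s t V C hU hR => ?_⟩
  have hn1 : n₁ ≤ n := (le_max_left _ _).trans hn
  have hn2 : ⌈2 / α⌉₊ + 1 ≤ n := (le_max_right _ _).trans hn
  have hn0 : 0 < n := by omega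
  have hnα : 2 ≤ α * n := by
    have h1 : 2 / α ≤ n := (Nat.le_ceil _).trans (by exact_mod_cast (by omega : ⌈2 / α⌉₊ ≤ n))
    rw [div_le_iff₀ hα0] at h1
    linarith
  rw [← hkd, ← hη]
  by_contra hcon
  push Not at hcon
  obtain ⟨a, b, hact⟩ := hU
  classical
  obtain ⟨B, hB⟩ : ∃ B : Finset (Fin n → ZMod 2), B = univ.filter fun z => AvB U a b z :=
    ⟨_, rfl⟩
  have hBmem : ∀ z, z ∈ B ↔ AvB U a b z := by
    intro z
    rw [hB, mem_filter]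
    simp
  have hBcard : (B.card : ℝ) ≤ 2 ^ ((1 - η) * n) := by
    have h1 := hORB n s U a hact.ga
    have h2 := hORB n t U b hact.gb
    have h3 : B.card ≤ Nat.card {z // ∃ g, ∀ f ∈ U, a f g = g → pair z f = 0} +
        Nat.card {z // ∃ i, ∀ f ∈ U, b f i = i → pair z f = 0} := by
      rw [Nat.card_eq_fintype_card, Nat.card_eq_fintype_card, Fintype.card_subtype,
        Fintype.card_subtype]
      refine (Finset.card_le_card ?_).trans (Finset.card_union_le _ _)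
      intro z hz
      rw [mem_union, mem_filter, mem_filter]
      rcases (hBmem z).1 hz with h | h
      · exact Or.inl ⟨mem_univ _, h⟩
      · exact Or.inr ⟨mem_univ _, h⟩
    have h4 : (B.card : ℝ) ≤
        (Nat.card {z // ∃ g, ∀ f ∈ U, a f g = g → pair z f = 0} : ℝ) +
        Nat.card {z // ∃ i, ∀ f ∈ U, b f i = i → pair z f = 0} := by
      exact_mod_cast h3
    have h5 : (1 - η) * (n : ℝ) = ((Module.finrank (ZMod 2) U : ℝ) - η * n) +
        ((n : ℝ) - Module.finrank (ZMod 2) U) := by ring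
    rw [h5, Real.rpow_add (by norm_num)]
    have h6 : ((s : ℝ) + t) * 2 ^ ((n : ℝ) - Module.finrank (ZMod 2) U) ≤
        2 ^ ((Module.finrank (ZMod 2) U : ℝ) - η * n) *
          2 ^ ((n : ℝ) - Module.finrank (ZMod 2) U) :=
      mul_le_mul_of_nonneg_right hcon.le (Real.rpow_nonneg (by norm_num) _)
    rw [add_mul] at h6
    linarith
  obtain ⟨e, he, hey, hew⟩ := hn₁ n hn1 B hBcard
  obtain ⟨s₀, hs₀⟩ : ∃ s₀ : ℕ, s₀ = ⌊α * n⌋₊ := ⟨_, rfl⟩
  rw [← hs₀] at hey hew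
  have hs2 : 2 ≤ s₀ := by
    rw [hs₀]
    exact Nat.le_floor (by push_cast; linarith)
  have hs3 : (s₀ : ℝ) ≤ α * n := by
    rw [hs₀]
    exact Nat.floor_le (by positivity)
  obtain ⟨θ, hθ⟩ : ∃ θ : ℕ, θ + 1 = s₀ := ⟨s₀ - 1, by omega⟩
  have hθ1 : 1 ≤ θ := by omega
  have hθ4 : 2 * θ ≤ n := by
    have h1 : (2 * s₀ : ℝ) ≤ n := by
      have h2 : (0 : ℝ) ≤ n := Nat.cast_nonneg n
      have h3 : 4 * α * n ≤ 1 * n := mul_le_mul_of_nonneg_right hα4 h2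
      nlinarith
    have h2 : 2 * s₀ ≤ n := by exact_mod_cast h1
    omega
  have h4ρ : 2 * θ ≤ 4 * ρ * s₀ := by
    have h1 : 4 * 1 * s₀ ≤ 4 * ρ * s₀ :=
      Nat.mul_le_mul_right _ (Nat.mul_le_mul_left _ hρ1)
    omega
  obtain ⟨h, hinj, hD, hp⟩ := hRED n d K θ e U hθ1 hθ4 he (fun y h1 h2 h3 =>
    hey y (by omega) (by omega) ((hBmem _).2 (Or.inl ⟨C.out, fun f hf _ => h3 f hf⟩)))
  obtain ⟨hE, hEnw⟩ := hEXT ((K + 1) * n) (K * n) n d e h hinj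
  obtain ⟨c, -, hc⟩ := hSHIFT (1 / (2 * k)) (by positivity) (by
      rw [div_le_div_iff₀ (by positivity) (by norm_num)]
      linarith) K (by
      rw [hK]
      push_cast
      have e : 4 / (1 / (2 * (k : ℝ))) ^ 2 = 16 * (k : ℝ) ^ 2 := by
        field_simp
        ring
      rw [e]) n hn0 (fun x i => ∑ p, toZ (x (e (h i) p))) ∅ (by simp)
  have heq := hCOR (K * n) n d s t s₀ ρ (2 * ρ * s₀) V (fun i => e (h i)) U C a b c hD hact hs2
    hρ1 (le_of_eq (by ring))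
    (fun y hy hw => hp y hy (by omega))
    (fun y h1 h2 h3 => by
      obtain ⟨h4, h5⟩ := hE y
      refine hey (Function.extend h y 0) (by rw [h5]; exact h1) (by rw [h5]; linarith) ?_
      rw [h4]
      exact (hBmem _).2 h3)
    (fun u₀ hu₀ T hT hTu => by
      obtain ⟨j, hj⟩ := hew u₀ ((hBmem _).2 hu₀) (fun j => Function.extend h (T j) 0)
        (fun j => by rw [(hE (T j)).2]; exact hT j)
        (fun j => by rw [(hE (T j)).1]; exact (hBmem _).2 (hTu j))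
      rw [hEnw ρ T j] at hj
      exact ⟨j, hj⟩)
  obtain ⟨-, hw0, -, hsat⟩ := hSIZ (K * n) n d (fun i => e (h i)) hD 0
  obtain ⟨hsz0, -, -, -⟩ := hSIZ (K * n) n d (fun i => e (h i)) hD 0
  obtain ⟨hsz, hw, hv, -⟩ := hSIZ (K * n) n d (fun i => e (h i)) hD c
  have hm : K * n * 2 ^ d = K * 2 ^ d * n := by ring
  rw [hm] at hsz0 hsz
  have htrue := (hR (fml (fun i => e (h i)) 0) hsz0 hw0).1 hsat
  have hfalse := (hR (fml (fun i => e (h i)) c) hsz hw).2 (fun x => by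
    rw [hv x]
    refine le_trans (le_of_eq ?_) (hc x)
    push_cast
    rw [show ((d : ℝ) + 1) = k by rw [hkd]; push_cast; ring, ← hkd]
    rw [show (2 : ℝ) ^ k = 2 ^ d * 2 by rw [hkd, pow_succ]]
    field_simp)
  rw [LCirc.ans] at htrue hfalse
  rw [heq, hfalse] at htrue
  exact absurd htrue (by simp)

theorem pf_FINLA : T_FINLA := fun hSIZ hCOR hORB hMAT hRED hEXT hNUM hSHIFT hUP =>
  ⟨fun k hk => lowLA hSIZ hCOR hORB hMAT hRED hEXT hNUM hSHIFT k hk, hUP⟩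

end Pool.Agent.H70.LA
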